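import Mathlib

/-!
# Interpolation with control of the norm in a complete minimal system
-/

set_option autoImplicit false

open Set

namespace Pool.Agent.U104.SB

variable {𝕜 V : Type*} [RCLike 𝕜] [NormedAddCommGroup V] [NormedSpace 𝕜 V]

theorem mem_span_Iio {a : ℕ → V} {w : V} (hw : w ∈ Submodule.span 𝕜 (range a)) :
    ∃ n, w ∈ Submodule.span 𝕜 (a '' Iio n) := by
  induction hw using Submodule.span_induction with
  | mem x hx =>
    obtain ⟨i, rfl⟩ := hx
    exact ⟨i + 1, Submodule.subset_span ⟨i, by simp, rfl⟩⟩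
  | zero => exact ⟨0, Submodule.zero_mem _⟩
  | add x y _ _ hx hy =>
    obtain ⟨n, hn⟩ := hx
    obtain ⟨m, hm⟩ := hy
    refine ⟨max n m, Submodule.add_mem _ (Submodule.span_mono (image_mono ?_) hn)
      (Submodule.span_mono (image_mono ?_) hm)⟩
    · exact Iio_subset_Iio (le_max_left _ _)
    · exact Iio_subset_Iio (le_max_right _ _)
  | smul c x _ hx =>
    obtain ⟨n, hn⟩ := hx
    exact ⟨n, Submodule.smul_mem _ _ hn⟩

/-- Interpolation: for each `p` there is `q` such that each `h` agrees on the first `p` functionals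
with some `w` in the span of the first `q` vectors with `‖w‖ ≤ 2 ‖h‖`. -/
theorem interp {a : ℕ → V} {φ : ℕ → StrongDual 𝕜 V}
    (hb : ∀ i j, φ i (a j) = if i = j then 1 else 0)
    (hd : Dense (Submodule.span 𝕜 (range a) : Set V)) (p : ℕ) :
    ∃ q, p ≤ q ∧ ∀ h : V, ∃ w ∈ Submodule.span 𝕜 (a '' Iio q), (∀ i < p, φ i w = φ i h) ∧
      ‖w‖ ≤ 2 * ‖h‖ := by
  classical
  let Φ : V → (Fin p → 𝕜) := fun h i => φ i h
  set C : ℝ := ∑ i ∈ Finset.range p, (1 + ‖φ i‖) * ‖a i‖ with hC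
  have hC0 : 0 ≤ C := Finset.sum_nonneg fun i _ => by positivity
  set ε : ℝ := 1 / (1 + C) with hε
  have hε0 : 0 < ε := by positivity
  have hεC : ε * (1 + C) = 1 := by rw [hε]; field_simp
  -- total boundedness
  have hbdd : Bornology.IsBounded (Φ '' Metric.closedBall 0 1) := by
    rw [Metric.isBounded_iff_subset_closedBall 0]
    refine ⟨∑ i ∈ Finset.range p, ‖φ i‖, ?_⟩
    rintro _ ⟨h, hh, rfl⟩
    rw [mem_closedBall_zero_iff] at hh ⊢
    rw [pi_norm_le_iff_of_nonneg (Finset.sum_nonneg fun i _ => norm_nonneg _)]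
    intro i
    have h1 : ‖φ i h‖ ≤ ‖φ i‖ * ‖h‖ := (φ i).le_opNorm h
    have h2 : ‖φ i‖ * ‖h‖ ≤ ‖φ i‖ * 1 := by gcongr
    have h3 : ‖φ i‖ ≤ ∑ i ∈ Finset.range p, ‖φ i‖ :=
      Finset.single_le_sum (f := fun i => ‖φ i‖) (fun i _ => norm_nonneg _)
        (Finset.mem_range.2 i.2)
    exact h1.trans (h2.trans (by rw [mul_one]; exact h3))
  have htb : TotallyBounded (Φ '' Metric.closedBall 0 1) :=
    (hbdd.isCompact_closure.totallyBounded).subset subset_closure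
  obtain ⟨t, hts, htf, hcov⟩ := Metric.finite_approx_of_totallyBounded htb ε hε0
  have hex : ∀ y ∈ t, ∃ h : V, ∃ n : ℕ, ∃ w ∈ Submodule.span 𝕜 (a '' Iio n),
      ‖h‖ ≤ 1 ∧ Φ h = y ∧ ‖h - w‖ < ε := by
    intro y hy
    obtain ⟨h, hh, hhy⟩ := hts hy
    rw [mem_closedBall_zero_iff] at hh
    obtain ⟨w, hw, hd'⟩ := Metric.mem_closure_iff.1 (hd h) ε hε0
    obtain ⟨n, hn⟩ := mem_span_Iio hw
    exact ⟨h, n, w, hn, hh, hhy, by rwa [dist_eq_norm] at hd'⟩
  choose! H N W hW hH1 hHy hHW using hex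
  obtain ⟨q0, hq0⟩ := (htf.image N).bddAbove
  refine ⟨max p q0, le_max_left _ _, ?_⟩
  -- norm one case
  have key : ∀ h : V, ‖h‖ ≤ 1 → ∃ w ∈ Submodule.span 𝕜 (a '' Iio (max p q0)),
      (∀ i < p, φ i w = φ i h) ∧ ‖w‖ ≤ 2 := by
    intro h hh
    have hm : Φ h ∈ Φ '' Metric.closedBall 0 1 := ⟨h, by rwa [mem_closedBall_zero_iff], rfl⟩
    obtain ⟨y, hyt, hy⟩ := mem_iUnion₂.1 (hcov hm)
    have hy' : ∀ i < p, ‖φ i h - φ i (H y)‖ < ε := by
      intro i hi
      have h1 := (dist_pi_lt_iff hε0).1 (Metric.mem_ball.1 hy) ⟨i, hi⟩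
      rw [← hHy y hyt, dist_eq_norm] at h1
      exact h1
    have hdiff : ∀ i < p, ‖φ i h - φ i (W y)‖ ≤ ε * (1 + ‖φ i‖) := by
      intro i hi
      have h1 : φ i h - φ i (W y) = (φ i h - φ i (H y)) + φ i (H y - W y) := by
        rw [map_sub]; ring
      rw [h1]
      refine (norm_add_le _ _).trans ?_
      have h2 := hy' i hi
      have h3 : ‖φ i (H y - W y)‖ ≤ ‖φ i‖ * ε :=
        ((φ i).le_opNorm _).trans (by gcongr; exact (hHW y hyt).le)
      nlinarith
    refine ⟨W y + ∑ i ∈ Finset.range p, (φ i h - φ i (W y)) • a i, ?_, ?_, ?_⟩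
    · refine Submodule.add_mem _ (Submodule.span_mono (image_mono ?_) (hW y hyt)) ?_
      · exact Iio_subset_Iio ((hq0 ⟨y, hyt, rfl⟩).trans (le_max_right _ _))
      · refine Submodule.sum_mem _ fun i hi => Submodule.smul_mem _ _ (Submodule.subset_span ?_)
        exact ⟨i, lt_of_lt_of_le (Finset.mem_range.1 hi) (le_max_left _ _), rfl⟩
    · intro i hi
      rw [map_add, map_sum]
      simp only [map_smul, hb, smul_eq_mul, mul_ite, mul_one, mul_zero]
      rw [Finset.sum_ite_eq, if_pos (Finset.mem_range.2 hi)]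
      ring
    · have h1 : ‖W y‖ ≤ 1 + ε := by
        have h2 : W y = H y - (H y - W y) := by abel
        rw [h2]
        exact (norm_sub_le _ _).trans (add_le_add (hH1 y hyt) (hHW y hyt).le)
      have h2 : ‖∑ i ∈ Finset.range p, (φ i h - φ i (W y)) • a i‖ ≤ ε * C := by
        rw [hC, Finset.mul_sum]
        refine norm_sum_le_of_le _ fun i hi => ?_
        rw [norm_smul]
        have := hdiff i (Finset.mem_range.1 hi)
        calc ‖φ i h - φ i (W y)‖ * ‖a i‖ ≤ (ε * (1 + ‖φ i‖)) * ‖a i‖ := by gcongr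
          _ = _ := by ring
      refine (norm_add_le _ _).trans ?_
      nlinarith
  intro h
  rcases eq_or_ne h 0 with rfl | hne
  · exact ⟨0, Submodule.zero_mem _, fun i _ => rfl, by simp⟩
  have hn : 0 < ‖h‖ := norm_pos_iff.2 hne
  have hk : ((‖h‖ : ℝ) : 𝕜) ≠ 0 := by exact_mod_cast hn.ne'
  obtain ⟨w, hw, hwi, hwn⟩ := key (((‖h‖ : ℝ) : 𝕜)⁻¹ • h) (by
    rw [norm_smul, norm_inv, RCLike.norm_ofReal, abs_norm, inv_mul_cancel₀ hn.ne'])
  refine ⟨((‖h‖ : ℝ) : 𝕜) • w, Submodule.smul_mem _ _ hw, ?_, ?_⟩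
  · intro i hi
    rw [map_smul, hwi i hi, map_smul, smul_smul, mul_inv_cancel₀ hk, one_smul]
  · rw [norm_smul, RCLike.norm_ofReal, abs_norm]
    nlinarith

end Pool.Agent.U104.SB
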