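import Mathlib

/-!
# Cauchy matrices: quantitative general position
-/

set_option autoImplicit false

open Set

namespace Pool.Agent.U104.SB

variable {𝕜 : Type*} [RCLike 𝕜]

/-- the Cauchy kernel -/
noncomputable def th (𝕜 : Type*) [RCLike 𝕜] (d n : ℕ) : 𝕜 := 1 / ((d : 𝕜) + n + 1)

theorem den_ne (d n : ℕ) : (d : 𝕜) + n + 1 ≠ 0 := by
  have : ((d + n + 1 : ℕ) : 𝕜) ≠ 0 := by exact_mod_cast Nat.succ_ne_zero (d + n)
  push_cast at this
  exact this

theorem cauchy_inj (Z B : Finset ℕ) (h : B.card ≤ Z.card) (c : ℕ → 𝕜)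
    (hz : ∀ n ∈ Z, ∑ d ∈ B, c d * th 𝕜 d n = 0) : ∀ d ∈ B, c d = 0 := by
  classical
  open Polynomial in
  set P : 𝕜[X] := ∑ d ∈ B, C (c d) * ∏ d' ∈ B.erase d, (X + C ((d' : 𝕜) + 1)) with hP
  have hdeg : P.degree < Z.card := by
    refine lt_of_lt_of_le ?_ (show (B.card : WithBot ℕ) ≤ Z.card by exact_mod_cast h)
    rw [hP]
    refine (Polynomial.degree_sum_le _ _).trans_lt ?_
    rw [Finset.sup_lt_iff (WithBot.bot_lt_coe _)]
    intro d hd
    have hpos : 0 < B.card := Finset.card_pos.2 ⟨d, hd⟩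
    have h0 : (Polynomial.C (c d) *
        ∏ d' ∈ B.erase d, (Polynomial.X + Polynomial.C ((d' : 𝕜) + 1))).degree ≤
        (∏ d' ∈ B.erase d, (Polynomial.X + Polynomial.C ((d' : 𝕜) + 1))).degree := by
      rw [Polynomial.degree_mul]
      exact (add_le_add_left Polynomial.degree_C_le _).trans_eq (zero_add _)
    refine h0.trans_lt ?_
    have h1 : (∏ d' ∈ B.erase d, (Polynomial.X + Polynomial.C ((d' : 𝕜) + 1))).degree =
        ((B.card - 1 : ℕ) : WithBot ℕ) := by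
      rw [Polynomial.degree_prod]
      simp only [Polynomial.degree_X_add_C]
      rw [Finset.sum_const, Finset.card_erase_of_mem hd]
      simp
    rw [h1]
    exact_mod_cast Nat.sub_lt hpos one_pos
  have heval : ∀ n ∈ Z, P.eval (n : 𝕜) = 0 := by
    intro n hn
    have h1 : P.eval (n : 𝕜) = (∏ d ∈ B, ((d : 𝕜) + n + 1)) * ∑ d ∈ B, c d * th 𝕜 d n := by
      rw [hP, Polynomial.eval_finsetSum, Finset.mul_sum]
      refine Finset.sum_congr rfl fun d hd => ?_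
      rw [Polynomial.eval_mul, Polynomial.eval_C, Polynomial.eval_prod,
        ← Finset.mul_prod_erase B _ hd, th]
      have h2 : ∏ d' ∈ B.erase d, Polynomial.eval (n : 𝕜) (Polynomial.X + Polynomial.C ((d' : 𝕜) + 1))
          = ∏ d' ∈ B.erase d, ((d' : 𝕜) + n + 1) := by
        refine Finset.prod_congr rfl fun d' _ => ?_
        simp
        ring
      rw [h2]
      have := den_ne (𝕜 := 𝕜) d n
      field_simp
    rw [h1, hz n hn, mul_zero]
  have hP0 : P = 0 := by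
    refine Polynomial.eq_zero_of_degree_lt_of_eval_finset_eq_zero (Z.image (Nat.cast : ℕ → 𝕜)) ?_ ?_
    · rw [Finset.card_image_of_injective _ Nat.cast_injective]
      exact hdeg
    · intro x hx
      obtain ⟨n, hn, rfl⟩ := Finset.mem_image.1 hx
      exact heval n hn
  intro d hd
  have h1 : P.eval (-((d : 𝕜) + 1)) = 0 := by rw [hP0]; simp
  rw [hP, Polynomial.eval_finsetSum, Finset.sum_eq_single d] at h1
  · rw [Polynomial.eval_mul, Polynomial.eval_C, Polynomial.eval_prod, mul_eq_zero] at h1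
    rcases h1 with h1 | h1
    · exact h1
    · exfalso
      rw [Finset.prod_eq_zero_iff] at h1
      obtain ⟨d', hd', h2⟩ := h1
      rw [Finset.mem_erase] at hd'
      simp only [Polynomial.eval_add, Polynomial.eval_X, Polynomial.eval_C] at h2
      apply hd'.1
      have h3 : (d' : 𝕜) = d := by linear_combination h2
      exact_mod_cast h3
  · intro b hb hbd
    rw [Polynomial.eval_mul, Polynomial.eval_prod, mul_eq_zero]
    right
    rw [Finset.prod_eq_zero_iff]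
    exact ⟨d, Finset.mem_erase.2 ⟨hbd.symm, hd⟩, by simp⟩
  · intro hd'
    exact absurd hd hd'

theorem bound_one (Z B : Finset ℕ) (h : B.card ≤ Z.card) :
    ∃ M : ℝ, 0 ≤ M ∧ ∀ (c : ℕ → 𝕜) (R : ℝ), (0 ≤ R) →
      (∀ n ∈ Z, ‖∑ d ∈ B, c d * th 𝕜 d n‖ ≤ R) → ∀ d ∈ B, ‖c d‖ ≤ M * R := by
  classical
  let L : (B → 𝕜) →ₗ[𝕜] (Z → 𝕜) :=
    { toFun := fun c n => ∑ d : B, c d * th 𝕜 d n
      map_add' := fun x y => by
        funext n
        simp only [Pi.add_apply, add_mul, Finset.sum_add_distrib]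
      map_smul' := fun r x => by
        funext n
        simp only [Pi.smul_apply, smul_eq_mul, RingHom.id_apply, Finset.mul_sum, mul_assoc] }
  have hL : LinearMap.ker L = ⊥ := by
    rw [LinearMap.ker_eq_bot']
    intro c hc
    let c' : ℕ → 𝕜 := fun d => if hd : d ∈ B then c ⟨d, hd⟩ else 0
    have h1 := cauchy_inj Z B h c' (by
      intro n hn
      have h2 := congrFun hc ⟨n, hn⟩
      change ∑ d : B, c d * th 𝕜 d n = 0 at h2
      rw [← h2, ← Finset.sum_coe_sort B]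
      refine Finset.sum_congr rfl fun d _ => ?_
      simp [c'])
    funext d
    have h2 := h1 d d.2
    simpa [c'] using h2
  obtain ⟨K, hK, hKL⟩ := L.exists_antilipschitzWith hL
  refine ⟨K, K.2, fun c R hR hc d hd => ?_⟩
  have h1 := hKL.le_mul_dist (fun d : B => c d) 0
  rw [dist_zero_right, map_zero, dist_zero_right] at h1
  have h2 : ‖L fun d : B => c d‖ ≤ R := by
    rw [pi_norm_le_iff_of_nonneg hR]
    intro n
    have h3 := hc n n.2
    change ‖∑ d : B, c d * th 𝕜 d n‖ ≤ R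
    rwa [Finset.sum_coe_sort B (fun d => c d * th 𝕜 d n)]
  have h4 : ‖c d‖ ≤ ‖fun d : B => c d‖ := norm_le_pi_norm (fun d : B => c d) ⟨d, hd⟩
  exact h4.trans (h1.trans (by gcongr))

theorem solve_one (Z B : Finset ℕ) (h : Z.card ≤ B.card) :
    ∃ M : ℝ, 0 ≤ M ∧ ∀ (b : ℕ → 𝕜) (R : ℝ), (0 ≤ R) → (∀ n ∈ Z, ‖b n‖ ≤ R) →
      ∃ c : ℕ → 𝕜, (∀ n ∈ Z, ∑ d ∈ B, c d * th 𝕜 d n = b n) ∧ ∀ d ∈ B, ‖c d‖ ≤ M * R := by
  classical
  obtain ⟨B', hB', hcard⟩ := Finset.exists_subset_card_eq h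
  obtain ⟨M, hM0, hM⟩ := bound_one (𝕜 := 𝕜) Z B' hcard.le
  refine ⟨M, hM0, fun b R hR hb => ?_⟩
  let L : (B' → 𝕜) →ₗ[𝕜] (Z → 𝕜) :=
    { toFun := fun c n => ∑ d : B', c d * th 𝕜 d n
      map_add' := fun x y => by
        funext n
        simp only [Pi.add_apply, add_mul, Finset.sum_add_distrib]
      map_smul' := fun r x => by
        funext n
        simp only [Pi.smul_apply, smul_eq_mul, RingHom.id_apply, Finset.mul_sum, mul_assoc] }
  have hL : Function.Injective L := by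
    rw [← LinearMap.ker_eq_bot, LinearMap.ker_eq_bot']
    intro c hc
    let c' : ℕ → 𝕜 := fun d => if hd : d ∈ B' then c ⟨d, hd⟩ else 0
    have h1 := cauchy_inj Z B' hcard.le c' (by
      intro n hn
      have h2 := congrFun hc ⟨n, hn⟩
      change ∑ d : B', c d * th 𝕜 d n = 0 at h2
      rw [← h2, ← Finset.sum_coe_sort B']
      refine Finset.sum_congr rfl fun d _ => ?_
      simp [c'])
    funext d
    have h2 := h1 d d.2
    simpa [c'] using h2
  have hS : Function.Surjective L := by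
    rw [← LinearMap.injective_iff_surjective_of_finrank_eq_finrank]
    · exact hL
    · simp [hcard]
  obtain ⟨c, hc⟩ := hS fun n => b n
  let c' : ℕ → 𝕜 := fun d => if hd : d ∈ B' then c ⟨d, hd⟩ else 0
  have hsum : ∀ n ∈ Z, ∑ d ∈ B', c' d * th 𝕜 d n = b n := by
    intro n hn
    have h2 := congrFun hc ⟨n, hn⟩
    change ∑ d : B', c d * th 𝕜 d n = b n at h2
    rw [← h2, ← Finset.sum_coe_sort B']
    refine Finset.sum_congr rfl fun d _ => ?_
    simp [c']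
  refine ⟨c', ?_, ?_⟩
  · intro n hn
    rw [← hsum n hn]
    symm
    refine Finset.sum_subset hB' fun d _ hd => ?_
    simp [c', hd]
  · intro d _
    by_cases hd : d ∈ B'
    · exact hM c' R hR (fun n hn => by rw [hsum n hn]; exact hb n hn) d hd
    · simp only [c', hd, dite_false, norm_zero]
      positivity

/-- the uniform constant -/
theorem general_position (𝕜 : Type*) [RCLike 𝕜] (J D : Finset ℕ) : ∃ M : ℝ, 0 ≤ M ∧
    (∀ Z ⊆ J, ∀ B ⊆ D, B.card ≤ Z.card → ∀ (c : ℕ → 𝕜) (R : ℝ), (0 ≤ R) →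
      (∀ n ∈ Z, ‖∑ d ∈ B, c d * th 𝕜 d n‖ ≤ R) → ∀ d ∈ B, ‖c d‖ ≤ M * R) ∧
    (∀ Z ⊆ J, ∀ B ⊆ D, Z.card ≤ B.card → ∀ (b : ℕ → 𝕜) (R : ℝ), (0 ≤ R) →
      (∀ n ∈ Z, ‖b n‖ ≤ R) →
      ∃ c : ℕ → 𝕜, (∀ n ∈ Z, ∑ d ∈ B, c d * th 𝕜 d n = b n) ∧ ∀ d ∈ B, ‖c d‖ ≤ M * R) := by
  classical
  have h1 : ∀ Z B : Finset ℕ, ∃ M : ℝ, 0 ≤ M ∧ (B.card ≤ Z.card → ∀ (c : ℕ → 𝕜) (R : ℝ), (0 ≤ R) →
      (∀ n ∈ Z, ‖∑ d ∈ B, c d * th 𝕜 d n‖ ≤ R) → ∀ d ∈ B, ‖c d‖ ≤ M * R) := by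
    intro Z B
    by_cases h : B.card ≤ Z.card
    · obtain ⟨M, hM0, hM⟩ := bound_one (𝕜 := 𝕜) Z B h
      exact ⟨M, hM0, fun _ => hM⟩
    · exact ⟨0, le_refl _, fun h' => absurd h' h⟩
  have h2 : ∀ Z B : Finset ℕ, ∃ M : ℝ, 0 ≤ M ∧ (Z.card ≤ B.card → ∀ (b : ℕ → 𝕜) (R : ℝ), (0 ≤ R) →
      (∀ n ∈ Z, ‖b n‖ ≤ R) →
      ∃ c : ℕ → 𝕜, (∀ n ∈ Z, ∑ d ∈ B, c d * th 𝕜 d n = b n) ∧ ∀ d ∈ B, ‖c d‖ ≤ M * R) := by
    intro Z B
    by_cases h : Z.card ≤ B.card
    · obtain ⟨M, hM0, hM⟩ := solve_one (𝕜 := 𝕜) Z B h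
      exact ⟨M, hM0, fun _ => hM⟩
    · exact ⟨0, le_refl _, fun h' => absurd h' h⟩
  choose M1 hM10 hM1 using h1
  choose M2 hM20 hM2 using h2
  set M : ℝ := ∑ x ∈ J.powerset ×ˢ D.powerset, (M1 x.1 x.2 + M2 x.1 x.2) with hM
  have hle : ∀ Z ⊆ J, ∀ B ⊆ D, M1 Z B + M2 Z B ≤ M := by
    intro Z hZ B hB
    refine Finset.single_le_sum (f := fun x : Finset ℕ × Finset ℕ => M1 x.1 x.2 + M2 x.1 x.2)
      (fun x _ => add_nonneg (hM10 _ _) (hM20 _ _)) (a := (Z, B)) ?_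
    rw [Finset.mem_product, Finset.mem_powerset, Finset.mem_powerset]
    exact ⟨hZ, hB⟩
  refine ⟨M, Finset.sum_nonneg fun x _ => add_nonneg (hM10 _ _) (hM20 _ _), ?_, ?_⟩
  · intro Z hZ B hB hc c R hR h d hd
    refine (hM1 Z B hc c R hR h d hd).trans ?_
    have := hle Z hZ B hB
    have := hM20 Z B
    exact mul_le_mul_of_nonneg_right (by linarith) hR
  · intro Z hZ B hB hc b R hR h
    obtain ⟨c, hc1, hc2⟩ := hM2 Z B hc b R hR h
    refine ⟨c, hc1, fun d hd => (hc2 d hd).trans ?_⟩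
    have := hle Z hZ B hB
    have := hM10 Z B
    exact mul_le_mul_of_nonneg_right (by linarith) hR

end Pool.Agent.U104.SB
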