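import Pool.Agent.U104.SB.A

/-!
# Existence of a biorthogonal system `(e n, f n)` with both spans dense when `E*` is separable
-/

set_option autoImplicit false

open Set

namespace Pool.Agent.U104.SB

variable {𝕜 E : Type*} [RCLike 𝕜] [NormedAddCommGroup E] [NormedSpace 𝕜 E]

/-- finite biorthogonal systems, as lists -/
def Good (L : List (E × StrongDual 𝕜 E)) : Prop :=
  L.Pairwise (fun p q => p.2 q.1 = 0 ∧ q.2 p.1 = 0) ∧ ∀ p ∈ L, p.2 p.1 = 1

theorem good_nil : Good ([] : List (E × StrongDual 𝕜 E)) :=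
  ⟨List.Pairwise.nil, by simp⟩

/-- the first correction: subtract the projection -/
theorem Good.corr {L : List (E × StrongDual 𝕜 E)} (hL : Good L) (u : E) :
    ∃ v ∈ Submodule.span 𝕜 {x | ∃ p ∈ L, x = p.1}, ∀ p ∈ L, p.2 (u - v) = 0 := by
  induction L with
  | nil => exact ⟨0, Submodule.zero_mem _, by simp⟩
  | cons q L ih =>
    obtain ⟨hp, h1⟩ := hL
    rw [List.pairwise_cons] at hp
    obtain ⟨v, hv, hv0⟩ := ih ⟨hp.2, fun p hp' => h1 p (List.mem_cons_of_mem _ hp')⟩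
    refine ⟨v + q.2 (u - v) • q.1, ?_, ?_⟩
    · refine Submodule.add_mem _ (Submodule.span_mono ?_ hv) (Submodule.smul_mem _ _
        (Submodule.subset_span ⟨q, List.mem_cons_self, rfl⟩))
      rintro x ⟨p, hp, rfl⟩
      exact ⟨p, List.mem_cons_of_mem _ hp, rfl⟩
    · intro p hp'
      have e1 : u - (v + q.2 (u - v) • q.1) = (u - v) - q.2 (u - v) • q.1 := by abel
      rw [e1, map_sub, map_smul]
      rcases List.mem_cons.1 hp' with rfl | hp'
      · rw [h1 _ List.mem_cons_self]; simp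
      · rw [hv0 p hp', (hp.1 p hp').2]; simp

theorem Good.corr' {L : List (E × StrongDual 𝕜 E)} (hL : Good L) (g : StrongDual 𝕜 E) :
    ∃ v ∈ Submodule.span 𝕜 {x | ∃ p ∈ L, x = p.2}, ∀ p ∈ L, (g - v) p.1 = 0 := by
  induction L with
  | nil => exact ⟨0, Submodule.zero_mem _, by simp⟩
  | cons q L ih =>
    obtain ⟨hp, h1⟩ := hL
    rw [List.pairwise_cons] at hp
    obtain ⟨v, hv, hv0⟩ := ih ⟨hp.2, fun p hp' => h1 p (List.mem_cons_of_mem _ hp')⟩
    refine ⟨v + (g - v) q.1 • q.2, ?_, ?_⟩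
    · refine Submodule.add_mem _ (Submodule.span_mono ?_ hv) (Submodule.smul_mem _ _
        (Submodule.subset_span ⟨q, List.mem_cons_self, rfl⟩))
      rintro x ⟨p, hp, rfl⟩
      exact ⟨p, List.mem_cons_of_mem _ hp, rfl⟩
    · intro p hp'
      have e1 : g - (v + (g - v) q.1 • q.2) = (g - v) - (g - v) q.1 • q.2 := by abel
      rw [e1, _root_.sub_apply, _root_.smul_apply]
      rcases List.mem_cons.1 hp' with rfl | hp'
      · rw [h1 _ List.mem_cons_self]; simp
      · rw [hv0 p hp', (hp.1 p hp').1]; simp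

/-- extension catching a vector outside the span -/
theorem Good.ext_vec {L : List (E × StrongDual 𝕜 E)} (hL : Good L) (u : E)
    (hu : u ∉ Submodule.span 𝕜 {x | ∃ p ∈ L, x = p.1}) :
    ∃ p, Good (p :: L) ∧ u ∈ Submodule.span 𝕜 {x | ∃ q ∈ p :: L, x = q.1} := by
  obtain ⟨v, hv, hv0⟩ := hL.corr u
  have hne : u - v ≠ 0 := fun h => hu (by rw [sub_eq_zero.1 h]; exact hv)
  obtain ⟨g, _, hg⟩ := exists_dual_vector 𝕜 (u - v) (norm_ne_zero_iff.2 hne)
  have hn : ((‖u - v‖ : ℝ) : 𝕜) ≠ 0 := by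
    have := norm_pos_iff.2 hne
    exact_mod_cast this.ne'
  obtain ⟨w, hw, hw0⟩ := hL.corr' ((((‖u - v‖ : ℝ) : 𝕜)⁻¹) • g)
  have hwv : w (u - v) = 0 := by
    refine Submodule.span_induction (p := fun w _ => w (u - v) = 0) ?_ ?_ ?_ ?_ hw
    · rintro x ⟨p, hp, rfl⟩
      exact hv0 p hp
    · rfl
    · intro x y _ _ hx hy
      rw [_root_.add_apply, hx, hy, add_zero]
    · intro c x _ hx
      rw [_root_.smul_apply, hx, smul_zero]
  refine ⟨(u - v, ((((‖u - v‖ : ℝ) : 𝕜)⁻¹) • g) - w), ⟨?_, ?_⟩, ?_⟩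
  · rw [List.pairwise_cons]
    exact ⟨fun p hp => ⟨hw0 p hp, hv0 p hp⟩, hL.1⟩
  · intro p hp
    rcases List.mem_cons.1 hp with rfl | hp
    · change ((((‖u - v‖ : ℝ) : 𝕜)⁻¹) • g - w) (u - v) = 1
      rw [_root_.sub_apply, hwv, sub_zero, _root_.smul_apply, hg,
        smul_eq_mul, inv_mul_cancel₀ hn]
    · exact hL.2 p hp
  · have hsub : {x | ∃ p ∈ L, x = p.1} ⊆ {x | ∃ q ∈ (u - v, ((((‖u - v‖ : ℝ) : 𝕜)⁻¹) • g) - w) :: L,
        x = q.1} := by
      rintro x ⟨p, hp, rfl⟩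
      exact ⟨p, List.mem_cons_of_mem _ hp, rfl⟩
    have h1 : u - v ∈ Submodule.span 𝕜 {x | ∃ q ∈ (u - v, ((((‖u - v‖ : ℝ) : 𝕜)⁻¹) • g) - w) :: L,
        x = q.1} := Submodule.subset_span ⟨_, List.mem_cons_self, rfl⟩
    have h2 := Submodule.add_mem _ h1 (Submodule.span_mono hsub hv)
    rwa [sub_add_cancel] at h2

/-- extension catching a functional outside the span -/
theorem Good.ext_fun {L : List (E × StrongDual 𝕜 E)} (hL : Good L) (g : StrongDual 𝕜 E)
    (hg : g ∉ Submodule.span 𝕜 {x | ∃ p ∈ L, x = p.2}) :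
    ∃ p, Good (p :: L) ∧ g ∈ Submodule.span 𝕜 {x | ∃ q ∈ p :: L, x = q.2} := by
  obtain ⟨v, hv, hv0⟩ := hL.corr' g
  have hne : g - v ≠ 0 := fun h => hg (by rw [sub_eq_zero.1 h]; exact hv)
  obtain ⟨z, hz⟩ : ∃ z, (g - v) z ≠ 0 := by
    by_contra hcon
    push Not at hcon
    exact hne (ContinuousLinearMap.ext hcon)
  obtain ⟨w, hw, hw0⟩ := hL.corr (((g - v) z)⁻¹ • z)
  have hwv : (g - v) w = 0 := by
    refine Submodule.span_induction (p := fun w _ => (g - v) w = 0) ?_ ?_ ?_ ?_ hw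
    · rintro x ⟨p, hp, rfl⟩
      exact hv0 p hp
    · exact map_zero _
    · intro x y _ _ hx hy
      rw [map_add, hx, hy, add_zero]
    · intro c x _ hx
      rw [map_smul, hx, smul_zero]
  refine ⟨(((g - v) z)⁻¹ • z - w, g - v), ⟨?_, ?_⟩, ?_⟩
  · rw [List.pairwise_cons]
    exact ⟨fun p hp => ⟨hv0 p hp, hw0 p hp⟩, hL.1⟩
  · intro p hp
    rcases List.mem_cons.1 hp with rfl | hp
    · change (g - v) (((g - v) z)⁻¹ • z - w) = 1
      rw [map_sub, hwv, sub_zero, map_smul, smul_eq_mul, inv_mul_cancel₀ hz]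
    · exact hL.2 p hp
  · have hsub : {x | ∃ p ∈ L, x = p.2} ⊆ {x | ∃ q ∈ (((g - v) z)⁻¹ • z - w, g - v) :: L,
        x = q.2} := by
      rintro x ⟨p, hp, rfl⟩
      exact ⟨p, List.mem_cons_of_mem _ hp, rfl⟩
    have h1 : g - v ∈ Submodule.span 𝕜 {x | ∃ q ∈ (((g - v) z)⁻¹ • z - w, g - v) :: L,
        x = q.2} := Submodule.subset_span ⟨_, List.mem_cons_self, rfl⟩
    have h2 := Submodule.add_mem _ h1 (Submodule.span_mono hsub hv)
    rwa [sub_add_cancel] at h2

theorem span_list_fd (L : List (E × StrongDual 𝕜 E)) :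
    FiniteDimensional 𝕜 (Submodule.span 𝕜 {x | ∃ p ∈ L, x = p.1}) := by
  have : {x : E | ∃ p ∈ L, x = p.1}.Finite := by
    have h : {x : E | ∃ p ∈ L, x = p.1} = Prod.fst '' {p | p ∈ L} := by
      ext x
      constructor
      · rintro ⟨p, hp, rfl⟩; exact ⟨p, hp, rfl⟩
      · rintro ⟨p, hp, rfl⟩; exact ⟨p, hp, rfl⟩
    rw [h]
    exact (List.finite_toSet L).image _
  exact FiniteDimensional.span_of_finite 𝕜 this

/-- one extension serving two demands -/
theorem Good.step (hinf : ¬ FiniteDimensional 𝕜 E) {L : List (E × StrongDual 𝕜 E)} (hL : Good L)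
    (b : Bool) (u : E) (g : StrongDual 𝕜 E) :
    ∃ p, Good (p :: L) ∧ (b = true → u ∈ Submodule.span 𝕜 {x | ∃ q ∈ p :: L, x = q.1}) ∧
      (b = false → g ∈ Submodule.span 𝕜 {x | ∃ q ∈ p :: L, x = q.2}) := by
  have hout : ∃ z : E, z ∉ Submodule.span 𝕜 {x | ∃ p ∈ L, x = p.1} := by
    by_contra hcon
    push Not at hcon
    apply hinf
    have htop : Submodule.span 𝕜 {x | ∃ p ∈ L, x = p.1} = ⊤ := by
      rw [eq_top_iff]; intro z _; exact hcon z
    have := span_list_fd L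
    rw [htop] at this
    exact Module.Finite.equiv (Submodule.topEquiv (R := 𝕜) (M := E))
  obtain ⟨z, hz⟩ := hout
  obtain ⟨p0, hp0, _⟩ := hL.ext_vec z hz
  cases b with
  | true =>
    by_cases hu : u ∈ Submodule.span 𝕜 {x | ∃ p ∈ L, x = p.1}
    · refine ⟨p0, hp0, fun _ => Submodule.span_mono ?_ hu, fun h => by simp at h⟩
      rintro x ⟨p, hp, rfl⟩
      exact ⟨p, List.mem_cons_of_mem _ hp, rfl⟩
    · obtain ⟨p, hp, hup⟩ := hL.ext_vec u hu
      exact ⟨p, hp, fun _ => hup, fun h => by simp at h⟩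
  | false =>
    by_cases hg : g ∈ Submodule.span 𝕜 {x | ∃ p ∈ L, x = p.2}
    · refine ⟨p0, hp0, fun h => by simp at h, fun _ => Submodule.span_mono ?_ hg⟩
      rintro x ⟨p, hp, rfl⟩
      exact ⟨p, List.mem_cons_of_mem _ hp, rfl⟩
    · obtain ⟨p, hp, hup⟩ := hL.ext_fun g hg
      exact ⟨p, hp, fun h => by simp at h, fun _ => hup⟩

theorem exists_annihilating {p : Submodule 𝕜 E} (hp : IsClosed (p : Set E)) {x : E} (hx : x ∉ p) :
    ∃ g : StrongDual 𝕜 E, (∀ y ∈ p, g y = 0) ∧ g x ≠ 0 := by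
  have : IsClosed (p : Set E) := hp
  have hne : p.mkQL x ≠ 0 := by
    rw [Submodule.mkQL_apply, Submodule.mkQ_apply, Ne, Submodule.Quotient.mk_eq_zero]
    exact hx
  obtain ⟨g, _, hg⟩ := exists_dual_vector 𝕜 (p.mkQL x) (norm_ne_zero_iff.2 hne)
  refine ⟨g.comp p.mkQL, ?_, ?_⟩
  · intro y hy
    have : p.mkQL y = 0 := by
      rw [Submodule.mkQL_apply, Submodule.mkQ_apply, Submodule.Quotient.mk_eq_zero]
      exact hy
    rw [ContinuousLinearMap.comp_apply, this, map_zero]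
  · rw [ContinuousLinearMap.comp_apply, hg]
    have := norm_pos_iff.2 hne
    exact_mod_cast this.ne'

theorem dense_span_of_forall {S : Set E}
    (h : ∀ g : StrongDual 𝕜 E, (∀ y ∈ S, g y = 0) → g = 0) :
    Dense (Submodule.span 𝕜 S : Set E) := by
  intro x
  by_contra hx
  have hx' : x ∉ (Submodule.span 𝕜 S).topologicalClosure := hx
  obtain ⟨g, hg, hgx⟩ := exists_annihilating (Submodule.isClosed_topologicalClosure _) hx'
  have := h g fun y hy => hg y (Submodule.le_topologicalClosure _ (Submodule.subset_span hy))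
  exact hgx (by rw [this]; rfl)

/-- a countable family in `E` with dense span, from separability of the dual -/
theorem exists_dense_seq_dual [TopologicalSpace.SeparableSpace (StrongDual 𝕜 E)] :
    ∃ (h : ℕ → StrongDual 𝕜 E) (u : ℕ → E), DenseRange h ∧
      Dense (Submodule.span 𝕜 (range u) : Set E) := by
  obtain ⟨h, hh⟩ := TopologicalSpace.exists_dense_seq (StrongDual 𝕜 E)
  have hu : ∀ n, ∃ x : E, ‖x‖ ≤ 1 ∧ ‖h n‖ / 2 ≤ ‖h n x‖ := by
    intro n
    rcases eq_or_ne (h n) 0 with h0 | h0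
    · exact ⟨0, by simp, by simp [h0]⟩
    · have hlt : ‖h n‖ / 2 < ‖h n‖ := by
        have := norm_pos_iff.2 h0
        linarith
      obtain ⟨x, hx, hx'⟩ := (h n).exists_lt_apply_of_lt_opNorm hlt
      exact ⟨x, hx.le, hx'.le⟩
  choose u hu1 hu2 using hu
  refine ⟨h, u, hh, dense_span_of_forall fun g hg => ?_⟩
  by_contra hne
  have hpos := norm_pos_iff.2 hne
  obtain ⟨_, ⟨n, rfl⟩, hn⟩ := Metric.mem_closure_iff.1 (hh g) (‖g‖ / 4) (by positivity)
  rw [dist_eq_norm] at hn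
  have h1 : ‖g‖ ≤ ‖g - h n‖ + ‖h n‖ := by
    have : g = (g - h n) + h n := by abel
    calc ‖g‖ = ‖(g - h n) + h n‖ := by rw [← this]
      _ ≤ _ := norm_add_le _ _
  have h2 : ‖h n (u n)‖ ≤ ‖g - h n‖ := by
    have e1 : h n (u n) = - ((g - h n) (u n)) := by
      rw [_root_.sub_apply, hg _ ⟨n, rfl⟩]; ring
    rw [e1, norm_neg]
    calc ‖(g - h n) (u n)‖ ≤ ‖g - h n‖ * ‖u n‖ := (g - h n).le_opNorm _
      _ ≤ ‖g - h n‖ * 1 := by gcongr; exact hu1 n
      _ = _ := mul_one _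
  have h3 := hu2 n
  linarith

/-- **Markushevich.** If `E` is infinite dimensional with separable dual, there is a biorthogonal
system with both closed spans everything. -/
theorem exists_system (hinf : ¬ FiniteDimensional 𝕜 E)
    [TopologicalSpace.SeparableSpace (StrongDual 𝕜 E)] :
    ∃ (e : ℕ → E) (f : ℕ → StrongDual 𝕜 E), (∀ i j, f i (e j) = if i = j then 1 else 0) ∧
      Dense (Submodule.span 𝕜 (range e) : Set E) ∧
      Dense (Submodule.span 𝕜 (range f) : Set (StrongDual 𝕜 E)) := by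
  classical
  obtain ⟨h, u, hh, hu⟩ := exists_dense_seq_dual (𝕜 := 𝕜) (E := E)
  have hstep : ∀ (n : ℕ) (L : List (E × StrongDual 𝕜 E)), ∃ p, Good L → (Good (p :: L) ∧
      (n % 2 = 0 → u (n / 2) ∈ Submodule.span 𝕜 {x | ∃ q ∈ p :: L, x = q.1}) ∧
      (n % 2 = 1 → h (n / 2) ∈ Submodule.span 𝕜 {x | ∃ q ∈ p :: L, x = q.2})) := by
    intro n L
    by_cases hL : Good L
    · rcases Nat.mod_two_eq_zero_or_one n with hn | hn
      · obtain ⟨p, hp, h1, _⟩ := hL.step hinf true (u (n / 2)) 0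
        exact ⟨p, fun _ => ⟨hp, fun _ => h1 rfl, fun h => by omega⟩⟩
      · obtain ⟨p, hp, _, h1⟩ := hL.step hinf false 0 (h (n / 2))
        exact ⟨p, fun _ => ⟨hp, fun h => by omega, fun _ => h1 rfl⟩⟩
    · exact ⟨(0, 0), fun h => absurd h hL⟩
  choose nw hnw using hstep
  let S : ℕ → List (E × StrongDual 𝕜 E) := fun n => Nat.rec [] (fun n L => nw n L :: L) n
  have hS0 : S 0 = [] := rfl
  have hS : ∀ n, S (n + 1) = nw n (S n) :: S n := fun n => rfl
  have hgood : ∀ n, Good (S n) := by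
    intro n
    induction n with
    | zero => exact good_nil
    | succ n ih => rw [hS]; exact (hnw n (S n) ih).1
  let x : ℕ → E × StrongDual 𝕜 E := fun n => nw n (S n)
  have hmem : ∀ n i, i < n → x i ∈ S n := by
    intro n
    induction n with
    | zero => intro i hi; omega
    | succ n ih =>
      intro i hi
      rw [hS]
      rcases Nat.lt_succ_iff_lt_or_eq.1 hi with h1 | h1
      · exact List.mem_cons_of_mem _ (ih i h1)
      · subst h1; exact List.mem_cons_self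
  have hmem' : ∀ n, ∀ p ∈ S n, ∃ i, p = x i := by
    intro n
    induction n with
    | zero => intro p hp; simp [hS0] at hp
    | succ n ih =>
      intro p hp
      rw [hS] at hp
      rcases List.mem_cons.1 hp with rfl | hp
      · exact ⟨n, rfl⟩
      · exact ih p hp
  have hlt : ∀ i j, i < j → (x j).2 (x i).1 = 0 ∧ (x i).2 (x j).1 = 0 := by
    intro i j hij
    have h1 := (hgood (j + 1)).1
    rw [hS, List.pairwise_cons] at h1
    exact h1.1 _ (hmem j i hij)
  refine ⟨fun n => (x n).1, fun n => (x n).2, ?_, ?_, ?_⟩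
  · intro i j
    rcases lt_trichotomy i j with hij | hij | hij
    · rw [if_neg hij.ne]; exact (hlt i j hij).2
    · subst hij
      rw [if_pos rfl]
      exact (hgood (i + 1)).2 _ (hmem (i + 1) i (Nat.lt_succ_self i))
    · rw [if_neg hij.ne']; exact (hlt j i hij).1
  · refine Dense.mono ?_ hu
    refine Submodule.span_le.2 ?_
    rintro _ ⟨k, rfl⟩
    have h1 := (hnw (2 * k) (S (2 * k)) (hgood (2 * k))).2.1 (by omega)
    rw [show 2 * k / 2 = k by omega] at h1
    refine Submodule.span_mono ?_ h1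
    rintro y ⟨q, hq, rfl⟩
    rw [← hS] at hq
    obtain ⟨i, rfl⟩ := hmem' (2 * k + 1) q hq
    exact ⟨i, rfl⟩
  · refine Dense.mono ?_ hh
    rintro _ ⟨k, rfl⟩
    have h1 := (hnw (2 * k + 1) (S (2 * k + 1)) (hgood (2 * k + 1))).2.2 (by omega)
    rw [show (2 * k + 1) / 2 = k by omega] at h1
    refine Submodule.span_mono ?_ h1
    rintro y ⟨q, hq, rfl⟩
    rw [← hS] at hq
    obtain ⟨i, rfl⟩ := hmem' (2 * k + 2) q hq
    exact ⟨i, rfl⟩

end Pool.Agent.U104.SB
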