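import Pool.Agent.U104.SB.A
import Pool.Agent.U104.SB.B

/-!
# Block perturbation of a complete minimal system
-/

set_option autoImplicit false

open Set

namespace Pool.Agent.U104.SB

variable {𝕜 E : Type*} [RCLike 𝕜] [NormedAddCommGroup E] [NormedSpace 𝕜 E]

/-- The data of the construction. -/
structure Data (𝕜 E : Type*) [RCLike 𝕜] [NormedAddCommGroup E] [NormedSpace 𝕜 E] where
  e : ℕ → E
  f : ℕ → StrongDual 𝕜 E
  hb : ∀ i j, f i (e j) = if i = j then 1 else 0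
  s : ℕ → ℕ
  t : ℕ → ℕ
  s0 : s 0 = 0
  st : ∀ k, s k ≤ t k
  ts : ∀ k, t k ≤ s (k + 1)
  ss : ∀ k, s k < s (k + 1)
  q1 : ∀ (k : ℕ) (h : StrongDual 𝕜 E), ∃ w ∈ Submodule.span 𝕜 (f '' Iio (t k)),
    (∀ i < s k, w (e i) = h (e i)) ∧ ‖w‖ ≤ 2 * ‖h‖
  q2 : ∀ (k : ℕ), ∀ v ∈ Submodule.span 𝕜 (f '' Iio (t k)), ∀ z : StrongDual 𝕜 E,
    (∀ n < s (k + 1), z (e n) = 0) → ‖v‖ ≤ 2 * ‖v + z‖
  M : ℕ → ℝ
  M0 : ∀ k, 0 ≤ M k
  gp1 : ∀ k, ∀ Z ⊆ Finset.Ico (s k) (t k), ∀ B ⊆ Finset.Ico (t k) (s (k + 1)),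
    B.card ≤ Z.card → ∀ (c : ℕ → 𝕜) (R : ℝ), (0 ≤ R) →
      (∀ n ∈ Z, ‖∑ d ∈ B, c d * th 𝕜 d n‖ ≤ R) → ∀ d ∈ B, ‖c d‖ ≤ M k * R
  gp2 : ∀ k, ∀ Z ⊆ Finset.Ico (s k) (t k), ∀ B ⊆ Finset.Ico (t k) (s (k + 1)),
    Z.card ≤ B.card → ∀ (b : ℕ → 𝕜) (R : ℝ), (0 ≤ R) → (∀ n ∈ Z, ‖b n‖ ≤ R) →
      ∃ c : ℕ → 𝕜, (∀ n ∈ Z, ∑ d ∈ B, c d * th 𝕜 d n = b n) ∧ ∀ d ∈ B, ‖c d‖ ≤ M k * R
  δ : ℕ → ℝ
  δ0 : ∀ k, 0 < δ k
  hδ : ∀ k, δ k * (M k * (4 * ∑ n ∈ Finset.range (s (k + 1)), ‖e n‖)) *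
    (∑ d ∈ Finset.Ico (t k) (s (k + 1)), ‖f d‖) ≤ 1 / ((k : ℝ) + 1)

namespace Data

variable (X : Data 𝕜 E)

theorem s_strictMono : StrictMono X.s := strictMono_nat_of_lt_succ X.ss

theorem exists_blk (n : ℕ) : ∃ k, n < X.s (k + 1) :=
  ⟨n, lt_of_lt_of_le (Nat.lt_succ_self n) (X.s_strictMono.le_apply)⟩

open Classical in
/-- the block of `n` -/
noncomputable def blk (n : ℕ) : ℕ := Nat.find (X.exists_blk n)

theorem lt_blk (n : ℕ) : n < X.s (X.blk n + 1) := by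
  classical
  exact Nat.find_spec (X.exists_blk n)

theorem blk_le (n : ℕ) : X.s (X.blk n) ≤ n := by
  classical
  rcases Nat.eq_zero_or_pos (X.blk n) with h | h
  · rw [h, X.s0]; exact Nat.zero_le _
  · have h1 := Nat.find_min (X.exists_blk n) (m := X.blk n - 1) (Nat.sub_lt h one_pos)
    rw [not_lt, Nat.sub_add_cancel (show 1 ≤ X.blk n from h)] at h1
    exact h1

theorem blk_eq {n k : ℕ} (h1 : X.s k ≤ n) (h2 : n < X.s (k + 1)) : X.blk n = k := by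
  have h3 := X.blk_le n
  have h4 := X.lt_blk n
  apply le_antisymm
  · have h5 : X.s (X.blk n) < X.s (k + 1) := lt_of_le_of_lt h3 h2
    exact Nat.lt_succ_iff.1 (X.s_strictMono.lt_iff_lt.1 h5)
  · have h5 : X.s k < X.s (X.blk n + 1) := lt_of_le_of_lt h1 h4
    exact Nat.lt_succ_iff.1 (X.s_strictMono.lt_iff_lt.1 h5)

/-- the new functionals -/
noncomputable def g (n : ℕ) : StrongDual 𝕜 E :=
  if n < X.t (X.blk n) then X.f n else
    ((X.δ (X.blk n) : ℝ) : 𝕜) • X.f n +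
      ∑ m ∈ Finset.Ico (X.s (X.blk n)) (X.t (X.blk n)), th 𝕜 n m • X.f m

/-- the new vectors -/
noncomputable def y (n : ℕ) : E :=
  if n < X.t (X.blk n) then
    X.e n - ∑ d ∈ Finset.Ico (X.t (X.blk n)) (X.s (X.blk n + 1)),
      (th 𝕜 d n * ((X.δ (X.blk n) : ℝ) : 𝕜)⁻¹) • X.e d
  else ((X.δ (X.blk n) : ℝ) : 𝕜)⁻¹ • X.e n

theorem δne (k : ℕ) : ((X.δ k : ℝ) : 𝕜) ≠ 0 := by
  have := X.δ0 k
  exact_mod_cast this.ne'

theorem g_J {n k : ℕ} (h : n ∈ Finset.Ico (X.s k) (X.t k)) : X.g n = X.f n := by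
  rw [Finset.mem_Ico] at h
  have := X.blk_eq h.1 (lt_of_lt_of_le h.2 (X.ts k))
  rw [g, this, if_pos h.2]

theorem g_D {n k : ℕ} (h : n ∈ Finset.Ico (X.t k) (X.s (k + 1))) :
    X.g n = ((X.δ k : ℝ) : 𝕜) • X.f n + ∑ m ∈ Finset.Ico (X.s k) (X.t k), th 𝕜 n m • X.f m := by
  rw [Finset.mem_Ico] at h
  have := X.blk_eq ((X.st k).trans h.1) h.2
  rw [g, this, if_neg (not_lt.2 h.1)]

theorem y_J {n k : ℕ} (h : n ∈ Finset.Ico (X.s k) (X.t k)) :
    X.y n = X.e n - ∑ d ∈ Finset.Ico (X.t k) (X.s (k + 1)),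
      (th 𝕜 d n * ((X.δ k : ℝ) : 𝕜)⁻¹) • X.e d := by
  rw [Finset.mem_Ico] at h
  have := X.blk_eq h.1 (lt_of_lt_of_le h.2 (X.ts k))
  rw [y, this, if_pos h.2]

theorem y_D {n k : ℕ} (h : n ∈ Finset.Ico (X.t k) (X.s (k + 1))) :
    X.y n = ((X.δ k : ℝ) : 𝕜)⁻¹ • X.e n := by
  rw [Finset.mem_Ico] at h
  have := X.blk_eq ((X.st k).trans h.1) h.2
  rw [y, this, if_neg (not_lt.2 h.1)]

theorem cases (n : ℕ) : n ∈ Finset.Ico (X.s (X.blk n)) (X.t (X.blk n)) ∨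
    n ∈ Finset.Ico (X.t (X.blk n)) (X.s (X.blk n + 1)) := by
  have h3 := X.blk_le n
  have h4 := X.lt_blk n
  rw [Finset.mem_Ico, Finset.mem_Ico]
  omega

theorem blk_J {n k : ℕ} (h : n ∈ Finset.Ico (X.s k) (X.t k)) : X.blk n = k := by
  rw [Finset.mem_Ico] at h
  exact X.blk_eq h.1 (lt_of_lt_of_le h.2 (X.ts k))

theorem blk_D {n k : ℕ} (h : n ∈ Finset.Ico (X.t k) (X.s (k + 1))) : X.blk n = k := by
  rw [Finset.mem_Ico] at h
  exact X.blk_eq ((X.st k).trans h.1) h.2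

theorem not_JD {n k l : ℕ} (h : n ∈ Finset.Ico (X.s k) (X.t k))
    (h' : n ∈ Finset.Ico (X.t l) (X.s (l + 1))) : False := by
  have h1 := X.blk_J h
  have h2 := X.blk_D h'
  have : k = l := h1.symm.trans h2
  subst this
  rw [Finset.mem_Ico] at h h'
  omega

theorem fy_J {i j l : ℕ} (hj : j ∈ Finset.Ico (X.s l) (X.t l)) :
    X.f i (X.y j) = (if i = j then 1 else 0) -
      (if i ∈ Finset.Ico (X.t l) (X.s (l + 1)) then th 𝕜 i j * ((X.δ l : ℝ) : 𝕜)⁻¹ else 0) := by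
  rw [X.y_J hj, map_sub, map_sum, X.hb]
  congr 1
  simp only [map_smul, X.hb, smul_eq_mul, mul_ite, mul_one, mul_zero]
  rw [Finset.sum_ite_eq]

theorem fy_D {i j l : ℕ} (hj : j ∈ Finset.Ico (X.t l) (X.s (l + 1))) :
    X.f i (X.y j) = if i = j then ((X.δ l : ℝ) : 𝕜)⁻¹ else 0 := by
  rw [X.y_D hj, map_smul, X.hb]
  simp

theorem biorth (i j : ℕ) : X.g i (X.y j) = if i = j then 1 else 0 := by
  rcases X.cases i with hi | hi <;> rcases X.cases j with hj | hj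
  · rw [X.g_J hi, X.fy_J hj, if_neg (c := i ∈ _) (fun h => X.not_JD hi h), sub_zero]
  · have hne : i ≠ j := by rintro rfl; exact X.not_JD hi hj
    rw [X.g_J hi, X.fy_D hj, if_neg hne, if_neg hne]
  · have hne : i ≠ j := by rintro rfl; exact X.not_JD hj hi
    rw [X.g_D hi, _root_.add_apply, _root_.smul_apply, X.fy_J hj, if_neg hne, _root_.sum_apply]
    have hsum : ∑ m ∈ Finset.Ico (X.s (X.blk i)) (X.t (X.blk i)), (th 𝕜 i m • X.f m) (X.y j) =
        if j ∈ Finset.Ico (X.s (X.blk i)) (X.t (X.blk i)) then th 𝕜 i j else 0 := by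
      rw [← Finset.sum_ite_eq' (Finset.Ico (X.s (X.blk i)) (X.t (X.blk i))) j (fun m => th 𝕜 i m)]
      refine Finset.sum_congr rfl fun m hm => ?_
      rw [_root_.smul_apply, X.fy_J hj, if_neg (c := m ∈ _) (fun h => X.not_JD hm h), sub_zero,
        smul_eq_mul]
      simp
    rw [hsum, smul_eq_mul]
    by_cases hk : X.blk i = X.blk j
    · rw [← hk] at hj ⊢
      rw [if_pos hi, if_pos hj]
      have := X.δne (X.blk i)
      field_simp
      ring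
    · have h1 : i ∉ Finset.Ico (X.t (X.blk j)) (X.s (X.blk j + 1)) := fun h => hk (X.blk_D h)
      have h2 : j ∉ Finset.Ico (X.s (X.blk i)) (X.t (X.blk i)) := fun h => hk (X.blk_J h).symm
      rw [if_neg h1, if_neg h2]
      ring
  · rw [X.g_D hi, _root_.add_apply, _root_.smul_apply, X.fy_D hj, _root_.sum_apply]
    have hsum : ∑ m ∈ Finset.Ico (X.s (X.blk i)) (X.t (X.blk i)), (th 𝕜 i m • X.f m) (X.y j) = 0 := by
      refine Finset.sum_eq_zero fun m hm => ?_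
      have hne : m ≠ j := by rintro rfl; exact X.not_JD hm hj
      rw [_root_.smul_apply, X.fy_D hj, if_neg hne, smul_zero]
    rw [hsum, add_zero, smul_eq_mul]
    by_cases hij : i = j
    · subst hij
      rw [if_pos rfl, if_pos rfl, mul_inv_cancel₀ (X.δne _)]
    · rw [if_neg hij, if_neg hij, mul_zero]

theorem lt_s_of_J {n k l : ℕ} (h : n ∈ Finset.Ico (X.s k) (X.t k)) {m : ℕ} (hm : m < X.s l)
    (hmk : X.blk m = k) : n < X.s l := by
  rw [Finset.mem_Ico] at h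
  have h1 := X.blk_le m
  rw [hmk] at h1
  have h2 : X.s k < X.s l := lt_of_le_of_lt h1 hm
  have h3 : k < l := X.s_strictMono.lt_iff_lt.1 h2
  have h4 : X.s (k + 1) ≤ X.s l := X.s_strictMono.monotone h3
  exact lt_of_lt_of_le (lt_of_lt_of_le h.2 (X.ts k)) h4

theorem lt_s_of_D {n k l : ℕ} (h : n ∈ Finset.Ico (X.t k) (X.s (k + 1))) {m : ℕ} (hm : m < X.s l)
    (hmk : X.blk m = k) : n < X.s l := by
  rw [Finset.mem_Ico] at h
  have h1 := X.blk_le m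
  rw [hmk] at h1
  have h2 : X.s k < X.s l := lt_of_le_of_lt h1 hm
  have h3 : k < l := X.s_strictMono.lt_iff_lt.1 h2
  have h4 : X.s (k + 1) ≤ X.s l := X.s_strictMono.monotone h3
  exact lt_of_lt_of_le h.2 h4

theorem g_mem {n l : ℕ} (hn : n < X.s l) : X.g n ∈ Submodule.span 𝕜 (X.f '' Iio (X.s l)) := by
  rcases X.cases n with h | h
  · rw [X.g_J h]
    exact Submodule.subset_span ⟨n, hn, rfl⟩
  · rw [X.g_D h]
    refine Submodule.add_mem _ (Submodule.smul_mem _ _ (Submodule.subset_span ⟨n, hn, rfl⟩))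
      (Submodule.sum_mem _ fun m hm => Submodule.smul_mem _ _ (Submodule.subset_span ⟨m, ?_, rfl⟩))
    exact X.lt_s_of_J hm hn rfl

theorem f_mem {n l : ℕ} (hn : n < X.s l) : X.f n ∈ Submodule.span 𝕜 (X.g '' Iio (X.s l)) := by
  rcases X.cases n with h | h
  · rw [← X.g_J h]
    exact Submodule.subset_span ⟨n, hn, rfl⟩
  · have h1 : X.f n = ((X.δ (X.blk n) : ℝ) : 𝕜)⁻¹ • (X.g n -
        ∑ m ∈ Finset.Ico (X.s (X.blk n)) (X.t (X.blk n)), th 𝕜 n m • X.g m) := by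
      rw [X.g_D h]
      have h2 : ∑ m ∈ Finset.Ico (X.s (X.blk n)) (X.t (X.blk n)), th 𝕜 n m • X.g m =
          ∑ m ∈ Finset.Ico (X.s (X.blk n)) (X.t (X.blk n)), th 𝕜 n m • X.f m :=
        Finset.sum_congr rfl fun m hm => by rw [X.g_J hm]
      rw [h2, add_sub_cancel_right, smul_smul, inv_mul_cancel₀ (X.δne _), one_smul]
    rw [h1]
    refine Submodule.smul_mem _ _ (Submodule.sub_mem _ (Submodule.subset_span ⟨n, hn, rfl⟩)
      (Submodule.sum_mem _ fun m hm => Submodule.smul_mem _ _ (Submodule.subset_span ⟨m, ?_, rfl⟩)))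
    exact X.lt_s_of_J hm hn rfl

theorem e_mem {n l : ℕ} (hn : n < X.s l) : X.e n ∈ Submodule.span 𝕜 (X.y '' Iio (X.s l)) := by
  have hD : ∀ d < X.s l, d ∈ Finset.Ico (X.t (X.blk d)) (X.s (X.blk d + 1)) →
      X.e d ∈ Submodule.span 𝕜 (X.y '' Iio (X.s l)) := by
    intro d hd h
    have h1 : X.e d = ((X.δ (X.blk d) : ℝ) : 𝕜) • X.y d := by
      rw [X.y_D h, smul_smul, mul_inv_cancel₀ (X.δne _), one_smul]
    rw [h1]
    exact Submodule.smul_mem _ _ (Submodule.subset_span ⟨d, hd, rfl⟩)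
  rcases X.cases n with h | h
  · have h1 : X.e n = X.y n + ∑ d ∈ Finset.Ico (X.t (X.blk n)) (X.s (X.blk n + 1)),
      (th 𝕜 d n * ((X.δ (X.blk n) : ℝ) : 𝕜)⁻¹) • X.e d := by
      rw [X.y_J h, sub_add_cancel]
    rw [h1]
    refine Submodule.add_mem _ (Submodule.subset_span ⟨n, hn, rfl⟩)
      (Submodule.sum_mem _ fun d hd => Submodule.smul_mem _ _ (hD d ?_ ?_))
    · exact X.lt_s_of_D hd hn rfl
    · rw [X.blk_D hd]; exact hd
  · exact hD n hn h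

/-- expansion in the span of the first `p` functionals -/
theorem expand {p : ℕ} {v : StrongDual 𝕜 E} (hv : v ∈ Submodule.span 𝕜 (X.f '' Iio p)) :
    v = ∑ i ∈ Finset.range p, v (X.e i) • X.f i := by
  ext x
  rw [_root_.sum_apply]
  simp only [_root_.smul_apply, smul_eq_mul]
  induction hv using Submodule.span_induction with
  | mem w hw =>
    obtain ⟨j, hj, rfl⟩ := hw
    simp only [X.hb, ite_mul, one_mul, zero_mul]
    rw [Finset.sum_ite_eq, if_pos (Finset.mem_range.2 hj)]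
  | zero => simp
  | add v w _ _ hv hw =>
    simp only [_root_.add_apply, add_mul, Finset.sum_add_distrib]
    rw [← hv, ← hw]
  | smul c v _ hv =>
    simp only [_root_.smul_apply, smul_eq_mul, mul_assoc, ← Finset.mul_sum]
    rw [← hv]

/-- the block-complete partial sums -/
theorem partial_sum (φ : StrongDual 𝕜 E) (l : ℕ) :
    ∑ n ∈ Finset.range (X.s l), φ (X.y n) • X.g n =
      ∑ i ∈ Finset.range (X.s l), φ (X.e i) • X.f i := by
  set S : StrongDual 𝕜 E := ∑ n ∈ Finset.range (X.s l), φ (X.y n) • X.g n with hS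
  have hmem : S ∈ Submodule.span 𝕜 (X.f '' Iio (X.s l)) :=
    Submodule.sum_mem _ fun n hn => Submodule.smul_mem _ _ (X.g_mem (Finset.mem_range.1 hn))
  have hy : ∀ j < X.s l, (S - φ) (X.y j) = 0 := by
    intro j hj
    rw [_root_.sub_apply, hS, _root_.sum_apply]
    simp only [_root_.smul_apply, X.biorth, smul_eq_mul, mul_ite, mul_one, mul_zero]
    rw [Finset.sum_ite_eq', if_pos (Finset.mem_range.2 hj), sub_self]
  have he : ∀ i < X.s l, S (X.e i) = φ (X.e i) := by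
    intro i hi
    have h1 : (S - φ) (X.e i) = 0 := by
      refine Submodule.span_induction (p := fun w _ => (S - φ) w = 0) ?_ ?_ ?_ ?_ (X.e_mem hi)
      · rintro x ⟨j, hj, rfl⟩
        exact hy j hj
      · exact map_zero _
      · intro x y _ _ hx hy
        rw [map_add, hx, hy, add_zero]
      · intro c x _ hx
        rw [map_smul, hx, smul_zero]
    rw [_root_.sub_apply, sub_eq_zero] at h1
    exact h1
  rw [X.expand hmem]
  exact Finset.sum_congr rfl fun i hi => by rw [he i (Finset.mem_range.1 hi)]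

end Data

end Pool.Agent.U104.SB
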