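import Pool.Agent.U104.SB.C
import Pool.Agent.U104.SB.D

/-!
# The perturbed system is strong
-/

set_option autoImplicit false

open Set

namespace Pool.Agent.U104.SB

variable {𝕜 E : Type*} [RCLike 𝕜] [NormedAddCommGroup E] [NormedSpace 𝕜 E]

theorem zs (f : StrongDual 𝕜 E) : (0 : 𝕜) • f = 0 := by
  ext x; rw [_root_.smul_apply, zero_smul]; rfl

theorem subs (a b : 𝕜) (f : StrongDual 𝕜 E) : (a - b) • f = a • f - b • f := by
  ext x
  rw [_root_.smul_apply, _root_.sub_apply, _root_.smul_apply, _root_.smul_apply, sub_smul]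

theorem sums (B : Finset ℕ) (c : ℕ → 𝕜) (f : StrongDual 𝕜 E) :
    (∑ d ∈ B, c d) • f = ∑ d ∈ B, c d • f := by
  ext x
  rw [_root_.smul_apply, _root_.sum_apply, Finset.sum_smul]
  exact Finset.sum_congr rfl fun d _ => by rw [_root_.smul_apply]

namespace Data

variable (X : Data 𝕜 E)

open Classical in
/-- the key approximation -/
theorem approx (A : Set ℕ) (φ : StrongDual 𝕜 E) (hφ : ∀ n, n ∉ A → φ (X.y n) = 0) (k : ℕ)
    (v : StrongDual 𝕜 E) (hv : v ∈ Submodule.span 𝕜 (X.f '' Iio (X.s k)))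
    (hvφ : ‖φ - v‖ ≤ ‖φ‖) :
    ∃ w ∈ Submodule.span 𝕜 (X.g '' A),
      ‖φ - w‖ ≤ 3 * ‖φ - v‖ + 3 * (‖φ‖ * (1 / ((k : ℝ) + 1))) := by
  set J := Finset.Ico (X.s k) (X.t k) with hJ
  set D := Finset.Ico (X.t k) (X.s (k + 1)) with hD
  set Z := J.filter (· ∉ A) with hZ
  set B := D.filter (· ∈ A) with hB
  set Es : ℝ := ∑ n ∈ Finset.range (X.s (k + 1)), ‖X.e n‖ with hEs
  set Fs : ℝ := ∑ d ∈ D, ‖X.f d‖ with hFs
  have hEs0 : 0 ≤ Es := Finset.sum_nonneg fun _ _ => norm_nonneg _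
  have hFs0 : 0 ≤ Fs := Finset.sum_nonneg fun _ _ => norm_nonneg _
  have hM0 := X.M0 k
  have hδ0 := X.δ0 k
  have hδ := X.hδ k
  have hφ0 := norm_nonneg φ
  have heE : ∀ n < X.s (k + 1), ‖X.e n‖ ≤ Es := fun n hn =>
    Finset.single_le_sum (f := fun n => ‖X.e n‖) (fun _ _ => norm_nonneg _) (Finset.mem_range.2 hn)
  -- membership of complete partial sums
  have hSmem : ∀ l, ∑ n ∈ Finset.range (X.s l), φ (X.y n) • X.g n ∈
      Submodule.span 𝕜 (X.g '' A) := by
    intro l
    refine Submodule.sum_mem _ fun n _ => ?_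
    by_cases hn : n ∈ A
    · exact Submodule.smul_mem _ _ (Submodule.subset_span ⟨n, hn, rfl⟩)
    · rw [hφ n hn, zs]
      exact Submodule.zero_mem _
  by_cases hcard : Z.card ≤ B.card
  · -- Case 1
    obtain ⟨w0, hw0, hw0e, hw0n⟩ := X.q1 k (φ - v)
    set w : StrongDual 𝕜 E := v + w0 with hw
    have hwmem : w ∈ Submodule.span 𝕜 (X.f '' Iio (X.t k)) :=
      Submodule.add_mem _ (Submodule.span_mono (image_mono (Iio_subset_Iio (X.st k))) hv) hw0
    have hwe : ∀ i < X.s k, w (X.e i) = φ (X.e i) := by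
      intro i hi
      rw [hw, _root_.add_apply, hw0e i hi, _root_.sub_apply]
      ring
    have hφw : ‖φ - w‖ ≤ 3 * ‖φ - v‖ := by
      have h1 : φ - w = (φ - v) - w0 := by rw [hw]; abel
      rw [h1]
      refine (norm_sub_le _ _).trans ?_
      linarith
    have hwn : ‖w‖ ≤ 4 * ‖φ‖ := by
      have h1 : w = φ - (φ - w) := by abel
      rw [h1]
      refine (norm_sub_le _ _).trans ?_
      linarith
    set R : ℝ := ‖φ‖ * (4 * Es) with hR
    have hR0 : 0 ≤ R := by positivity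
    obtain ⟨c, hc1, hc2⟩ := X.gp2 k Z (Finset.filter_subset _ _) B (Finset.filter_subset _ _) hcard
      (fun n => w (X.e n)) R hR0 (by
        intro n hn
        have hn' : n < X.s (k + 1) := by
          have := (Finset.mem_Ico.1 (Finset.mem_filter.1 hn).1).2
          exact lt_of_lt_of_le this (X.ts k)
        calc ‖w (X.e n)‖ ≤ ‖w‖ * ‖X.e n‖ := w.le_opNorm _
          _ ≤ (4 * ‖φ‖) * Es := by gcongr; exact heE n hn'
          _ = R := by rw [hR]; ring)
    set r : StrongDual 𝕜 E := ((X.δ k : ℝ) : 𝕜) • ∑ d ∈ B, c d • X.f d with hr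
    have hrn : ‖r‖ ≤ ‖φ‖ * (1 / ((k : ℝ) + 1)) := by
      rw [hr, norm_smul, RCLike.norm_ofReal, abs_of_pos hδ0]
      have h1 : ‖∑ d ∈ B, c d • X.f d‖ ≤ (X.M k * R) * Fs := by
        calc ‖∑ d ∈ B, c d • X.f d‖ ≤ ∑ d ∈ B, (X.M k * R) * ‖X.f d‖ := by
              refine norm_sum_le_of_le _ fun d hd => ?_
              rw [norm_smul]
              exact mul_le_mul_of_nonneg_right (hc2 d hd) (norm_nonneg _)
          _ = (X.M k * R) * ∑ d ∈ B, ‖X.f d‖ := by rw [Finset.mul_sum]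
          _ ≤ (X.M k * R) * Fs := by
              refine mul_le_mul_of_nonneg_left ?_ (by positivity)
              exact Finset.sum_le_sum_of_subset_of_nonneg (Finset.filter_subset _ _)
                (fun _ _ _ => norm_nonneg _)
      calc X.δ k * ‖∑ d ∈ B, c d • X.f d‖ ≤ X.δ k * ((X.M k * R) * Fs) := by gcongr
        _ = ‖φ‖ * (X.δ k * (X.M k * (4 * Es)) * Fs) := by rw [hR]; ring
        _ ≤ ‖φ‖ * (1 / ((k : ℝ) + 1)) := by gcongr
    refine ⟨w + r, ?_, ?_⟩
    · -- membership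
      have h1 : w = ∑ i ∈ Finset.range (X.s k), φ (X.e i) • X.f i + ∑ i ∈ J, w (X.e i) • X.f i := by
        conv_lhs => rw [X.expand hwmem]
        rw [← Finset.sum_range_add_sum_Ico _ (X.st k)]
        congr 1
        exact Finset.sum_congr rfl fun i hi => by rw [hwe i (Finset.mem_range.1 hi)]
      have h2 : ∑ d ∈ B, c d • X.g d = r + ∑ m ∈ J, (∑ d ∈ B, c d * th 𝕜 d m) • X.f m := by
        have h3 : ∀ d ∈ B, c d • X.g d = ((X.δ k : ℝ) : 𝕜) • (c d • X.f d) +
            ∑ m ∈ J, (c d * th 𝕜 d m) • X.f m := by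
          intro d hd
          rw [X.g_D (Finset.mem_filter.1 hd).1, smul_add, Finset.smul_sum, smul_comm]
          congr 1
          exact Finset.sum_congr rfl fun m _ => by rw [smul_smul]
        rw [Finset.sum_congr rfl h3, Finset.sum_add_distrib, ← Finset.smul_sum, ← hr,
          Finset.sum_comm]
        congr 1
        exact Finset.sum_congr rfl fun m _ => by rw [sums]
      have h4 : w + r = ∑ n ∈ Finset.range (X.s k), φ (X.y n) • X.g n +
          ∑ d ∈ B, c d • X.g d +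
          ∑ i ∈ J, (w (X.e i) - ∑ d ∈ B, c d * th 𝕜 d i) • X.f i := by
        rw [X.partial_sum, h2]
        have h5 : ∑ i ∈ J, (w (X.e i) - ∑ d ∈ B, c d * th 𝕜 d i) • X.f i =
            ∑ i ∈ J, w (X.e i) • X.f i - ∑ i ∈ J, (∑ d ∈ B, c d * th 𝕜 d i) • X.f i := by
          rw [← Finset.sum_sub_distrib]
          exact Finset.sum_congr rfl fun i _ => by rw [subs]
        rw [h5]
        conv_lhs => rw [h1]
        abel
      rw [h4]
      refine Submodule.add_mem _ (Submodule.add_mem _ (hSmem k) ?_) ?_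
      · exact Submodule.sum_mem _ fun d hd => Submodule.smul_mem _ _
          (Submodule.subset_span ⟨d, (Finset.mem_filter.1 hd).2, rfl⟩)
      · refine Submodule.sum_mem _ fun i hi => ?_
        by_cases hiA : i ∈ A
        · rw [← X.g_J hi]
          exact Submodule.smul_mem _ _ (Submodule.subset_span ⟨i, hiA, rfl⟩)
        · rw [hc1 i (Finset.mem_filter.2 ⟨hi, hiA⟩), sub_self, zs]
          exact Submodule.zero_mem _
    · have h1 : φ - (w + r) = (φ - w) - r := by abel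
      rw [h1]
      refine (norm_sub_le _ _).trans ?_
      have : 0 ≤ ‖φ‖ * (1 / ((k : ℝ) + 1)) := by positivity
      linarith
  · -- Case 2
    rw [not_le] at hcard
    set R : ℝ := ‖φ‖ * Es with hR
    have hR0 : 0 ≤ R := by positivity
    have hyD : ∀ d ∈ D, φ (X.y d) = ((X.δ k : ℝ) : 𝕜)⁻¹ * φ (X.e d) := by
      intro d hd
      rw [X.y_D hd, map_smul, smul_eq_mul]
    have hcoef : ∀ n ∈ Z, ∑ d ∈ B, φ (X.y d) * th 𝕜 d n = φ (X.e n) := by
      intro n hn
      obtain ⟨hnJ, hnA⟩ := Finset.mem_filter.1 hn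
      have h1 := hφ n hnA
      rw [X.y_J hnJ, map_sub, map_sum, sub_eq_zero] at h1
      rw [h1]
      have h2 : ∑ d ∈ B, φ (X.y d) * th 𝕜 d n = ∑ d ∈ D, φ (X.y d) * th 𝕜 d n := by
        refine Finset.sum_subset (Finset.filter_subset _ _) fun d hd hdB => ?_
        have hdA : d ∉ A := fun h => hdB (Finset.mem_filter.2 ⟨hd, h⟩)
        rw [hφ d hdA, zero_mul]
      rw [h2]
      refine Finset.sum_congr rfl fun d hd => ?_
      rw [hyD d hd, map_smul, smul_eq_mul]
      ring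
    have hb := X.gp1 k Z (Finset.filter_subset _ _) B (Finset.filter_subset _ _) hcard.le
      (fun d => φ (X.y d)) R hR0 (by
        intro n hn
        rw [hcoef n hn]
        have hn' : n < X.s (k + 1) := by
          have := (Finset.mem_Ico.1 (Finset.mem_filter.1 hn).1).2
          exact lt_of_lt_of_le this (X.ts k)
        exact (φ.le_opNorm _).trans (by rw [hR]; gcongr; exact heE n hn'))
    have hbD : ∀ d ∈ D, ‖φ (X.e d)‖ ≤ X.δ k * (X.M k * R) := by
      intro d hd
      have h1 : φ (X.e d) = ((X.δ k : ℝ) : 𝕜) * φ (X.y d) := by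
        rw [hyD d hd, ← mul_assoc, mul_inv_cancel₀ (X.δne k), one_mul]
      rw [h1, norm_mul, RCLike.norm_ofReal, abs_of_pos hδ0]
      refine mul_le_mul_of_nonneg_left ?_ hδ0.le
      by_cases hdA : d ∈ A
      · exact hb d (Finset.mem_filter.2 ⟨hd, hdA⟩)
      · rw [hφ d hdA, norm_zero]; positivity
    set r : StrongDual 𝕜 E := ∑ d ∈ D, φ (X.e d) • X.f d with hr
    have hrn : ‖r‖ ≤ ‖φ‖ * (1 / ((k : ℝ) + 1)) := by
      calc ‖r‖ ≤ ∑ d ∈ D, (X.δ k * (X.M k * R)) * ‖X.f d‖ := by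
            refine norm_sum_le_of_le _ fun d hd => ?_
            rw [norm_smul]
            exact mul_le_mul_of_nonneg_right (hbD d hd) (norm_nonneg _)
        _ = (X.δ k * (X.M k * R)) * Fs := by rw [← Finset.mul_sum]
        _ ≤ ‖φ‖ * (X.δ k * (X.M k * (4 * Es)) * Fs) := by
            rw [hR]
            have h1 : 0 ≤ ‖φ‖ * (X.δ k * (X.M k * Es) * Fs) := by positivity
            nlinarith
        _ ≤ ‖φ‖ * (1 / ((k : ℝ) + 1)) := by gcongr
    set P : StrongDual 𝕜 E := ∑ i ∈ Finset.range (X.t k), φ (X.e i) • X.f i with hP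
    have hPmem : P ∈ Submodule.span 𝕜 (X.f '' Iio (X.t k)) :=
      Submodule.sum_mem _ fun i hi => Submodule.smul_mem _ _
        (Submodule.subset_span ⟨i, Finset.mem_range.1 hi, rfl⟩)
    set S : StrongDual 𝕜 E := ∑ n ∈ Finset.range (X.s (k + 1)), φ (X.y n) • X.g n with hS
    have hSP : S = P + r := by
      rw [hS, X.partial_sum, ← Finset.sum_range_add_sum_Ico _ (X.ts k)]
    have hSe : ∀ n < X.s (k + 1), (φ - S) (X.e n) = 0 := by
      intro n hn
      rw [_root_.sub_apply, hS, X.partial_sum, _root_.sum_apply]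
      simp only [_root_.smul_apply, X.hb, smul_eq_mul, mul_ite, mul_one, mul_zero]
      rw [Finset.sum_ite_eq', if_pos (Finset.mem_range.2 hn), sub_self]
    have h2 := X.q2 k (P - v) (Submodule.sub_mem _ hPmem
      (Submodule.span_mono (image_mono (Iio_subset_Iio (X.st k))) hv)) (φ - S) hSe
    have h3 : P - v + (φ - S) = (φ - v) - r := by rw [hSP]; abel
    rw [h3] at h2
    have h4 : ‖(φ - v) - r‖ ≤ ‖φ - v‖ + ‖r‖ := norm_sub_le _ _
    refine ⟨S, hSmem (k + 1), ?_⟩
    have h5 : φ - S = (φ - v) - (P - v) - r := by rw [hSP]; abel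
    rw [h5]
    have h6 : ‖(φ - v) - (P - v) - r‖ ≤ ‖φ - v‖ + ‖P - v‖ + ‖r‖ :=
      (norm_sub_le _ _).trans (by gcongr; exact norm_sub_le _ _)
    linarith

end Data

end Pool.Agent.U104.SB
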