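import Pool.Agent.U104.SB.F

/-!
# The main theorem: strong systems in spaces with separable dual
-/

set_option autoImplicit false

open Set

namespace Pool.Agent.U104.SB

variable {𝕜 E : Type*} [RCLike 𝕜] [NormedAddCommGroup E] [NormedSpace 𝕜 E]

theorem Data.strong (X : Data 𝕜 E)
    (hdf : Dense (Submodule.span 𝕜 (range X.f) : Set (StrongDual 𝕜 E)))
    (A : Set ℕ) (φ : StrongDual 𝕜 E) (hφ : ∀ n, n ∉ A → φ (X.y n) = 0) :
    φ ∈ closure (Submodule.span 𝕜 (X.g '' A) : Set (StrongDual 𝕜 E)) := by
  rcases eq_or_ne φ 0 with rfl | hne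
  · exact subset_closure (Submodule.zero_mem _)
  have hpos : 0 < ‖φ‖ := norm_pos_iff.2 hne
  rw [Metric.mem_closure_iff]
  intro ε hε
  have hη : 0 < min (ε / 9) ‖φ‖ := lt_min (by positivity) hpos
  obtain ⟨v, hv, hvd⟩ := Metric.mem_closure_iff.1 (hdf φ) _ hη
  rw [dist_eq_norm] at hvd
  obtain ⟨n, hn⟩ := mem_span_Iio hv
  obtain ⟨m, hm⟩ := exists_nat_gt (‖φ‖ / (ε / 9))
  set k := max n m with hk
  have hv' : v ∈ Submodule.span 𝕜 (X.f '' Iio (X.s k)) := by
    refine Submodule.span_mono (image_mono (Iio_subset_Iio ?_)) hn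
    exact (le_max_left n m).trans X.s_strictMono.le_apply
  obtain ⟨w, hw, hwd⟩ := X.approx A φ hφ k v hv' (hvd.le.trans (min_le_right _ _))
  refine ⟨w, hw, ?_⟩
  rw [dist_eq_norm]
  have h1 : ‖φ - v‖ < ε / 9 := hvd.trans_le (min_le_left _ _)
  have h2 : ‖φ‖ * (1 / ((k : ℝ) + 1)) < ε / 9 := by
    have hk1 : (m : ℝ) ≤ k := by exact_mod_cast le_max_right n m
    have hk2 : ‖φ‖ / (ε / 9) < (k : ℝ) + 1 := by linarith
    rw [div_lt_iff₀ (by positivity)] at hk2
    rw [mul_one_div, div_lt_iff₀ (by positivity)]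
    linarith
  linarith

theorem exists_data {e : ℕ → E} {f : ℕ → StrongDual 𝕜 E}
    (hb : ∀ i j, f i (e j) = if i = j then 1 else 0)
    (hde : Dense (Submodule.span 𝕜 (range e) : Set E))
    (hdf : Dense (Submodule.span 𝕜 (range f) : Set (StrongDual 𝕜 E))) :
    ∃ X : Data 𝕜 E, X.e = e ∧ X.f = f := by
  classical
  have h1 := interp (V := StrongDual 𝕜 E) (a := f)
    (φ := fun n => NormedSpace.inclusionInDoubleDual 𝕜 E (e n))
    (by intro i j; rw [NormedSpace.dual_def, hb]; simp only [eq_comm]) hdf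
  have h2 : ∀ p, ∃ q, p ≤ q ∧ ∀ v ∈ Submodule.span 𝕜 (f '' Iio p), ∀ z : StrongDual 𝕜 E,
      (∀ n < q, z (e n) = 0) → ‖v‖ ≤ 2 * ‖v + z‖ := by
    intro p
    obtain ⟨q, hpq, hq⟩ := interp hb hde p
    refine ⟨q, hpq, fun v hv z hz => ?_⟩
    refine v.opNorm_le_bound (by positivity) fun x => ?_
    obtain ⟨w, hw, hwi, hwn⟩ := hq x
    have e1 : v w = v x := by
      have : v (w - x) = 0 := by
        refine Submodule.span_induction (p := fun v _ => v (w - x) = 0) ?_ ?_ ?_ ?_ hv
        · rintro _ ⟨i, hi, rfl⟩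
          rw [map_sub, hwi i hi, sub_self]
        · rfl
        · intro a b _ _ ha hb'
          rw [_root_.add_apply, ha, hb', add_zero]
        · intro c a _ ha
          rw [_root_.smul_apply, ha, smul_zero]
      rwa [map_sub, sub_eq_zero] at this
    have e2 : z w = 0 := by
      refine Submodule.span_induction (p := fun w _ => z w = 0) ?_ ?_ ?_ ?_ hw
      · rintro _ ⟨i, hi, rfl⟩
        exact hz i hi
      · exact map_zero _
      · intro a b _ _ ha hb'
        rw [map_add, ha, hb', add_zero]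
      · intro c a _ ha
        rw [map_smul, ha, smul_zero]
    calc ‖v x‖ = ‖(v + z) w‖ := by rw [_root_.add_apply, e1, e2, add_zero]
      _ ≤ ‖v + z‖ * ‖w‖ := (v + z).le_opNorm _
      _ ≤ ‖v + z‖ * (2 * ‖x‖) := by gcongr
      _ = 2 * ‖v + z‖ * ‖x‖ := by ring
  choose q1 hq1 hq1' using h1
  choose q2 hq2 hq2' using h2
  let s : ℕ → ℕ := fun n => Nat.rec 0 (fun _ m => q2 (q1 m) + 1) n
  have hs : ∀ k, s (k + 1) = q2 (q1 (s k)) + 1 := fun k => rfl
  have hgp := fun k => general_position 𝕜 (Finset.Ico (s k) (q1 (s k)))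
    (Finset.Ico (q1 (s k)) (s (k + 1)))
  choose M hM0 hM1 hM2 using hgp
  let C : ℕ → ℝ := fun k => (M k * (4 * ∑ n ∈ Finset.range (s (k + 1)), ‖e n‖)) *
    (∑ d ∈ Finset.Ico (q1 (s k)) (s (k + 1)), ‖f d‖)
  have hC : ∀ k, 0 ≤ C k := fun k => mul_nonneg (mul_nonneg (hM0 k)
    (mul_nonneg (by norm_num) (Finset.sum_nonneg fun _ _ => norm_nonneg _)))
    (Finset.sum_nonneg fun _ _ => norm_nonneg _)
  refine ⟨{ e := e, f := f, hb := hb, s := s, t := fun k => q1 (s k), s0 := rfl
            st := fun k => hq1 (s k)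
            ts := fun k => by
              change q1 (s k) ≤ s (k + 1)
              rw [hs]
              exact (hq2 _).trans (Nat.le_succ _)
            ss := fun k => by
              rw [hs]
              exact Nat.lt_succ_of_le ((hq1 _).trans (hq2 _))
            q1 := fun k h => by
              obtain ⟨w, hw, hwi, hwn⟩ := hq1' (s k) h
              exact ⟨w, hw, fun i hi => hwi i hi, hwn⟩
            q2 := fun k v hv z hz => hq2' (q1 (s k)) v hv z fun n hn => hz n (by
              rw [hs]; exact hn.trans (Nat.lt_succ_self _))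
            M := M, M0 := hM0, gp1 := hM1, gp2 := hM2
            δ := fun k => 1 / (((k : ℝ) + 1) * (1 + C k))
            δ0 := fun k => by have := hC k; positivity
            hδ := fun k => ?_ }, rfl, rfl⟩
  have h3 := hC k
  have h4 : 1 / (((k : ℝ) + 1) * (1 + C k)) *
      (M k * (4 * ∑ n ∈ Finset.range (s (k + 1)), ‖e n‖)) *
      ∑ d ∈ Finset.Ico (q1 (s k)) (s (k + 1)), ‖f d‖ = C k / (((k : ℝ) + 1) * (1 + C k)) := by
    simp only [C]
    ring
  rw [h4, div_le_div_iff₀ (by positivity) (by positivity)]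
  nlinarith

/-- **Main theorem.** -/
theorem main (hinf : ¬ FiniteDimensional 𝕜 E)
    [TopologicalSpace.SeparableSpace (StrongDual 𝕜 E)] :
    ∃ (x : ℕ → E) (f : ℕ → StrongDual 𝕜 E), (∀ i j, f i (x j) = if i = j then 1 else 0) ∧
      Dense (Submodule.span 𝕜 (range x) : Set E) ∧
      Dense (Submodule.span 𝕜 (range f) : Set (StrongDual 𝕜 E)) ∧
      (∀ A : Set ℕ, closure (Submodule.span 𝕜 (f '' A) : Set (StrongDual 𝕜 E)) =
        {g | ∀ n, n ∉ A → g (x n) = 0}) ∧
      (∀ A : Set ℕ, closure (Submodule.span 𝕜 (x '' A) : Set E) =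
        {v | ∀ n, n ∉ A → f n v = 0}) := by
  obtain ⟨e, f, hb, hde, hdf⟩ := exists_system (𝕜 := 𝕜) hinf
  obtain ⟨X, hXe, hXf⟩ := exists_data hb hde hdf
  have hstrong : ∀ A : Set ℕ, closure (Submodule.span 𝕜 (X.g '' A) : Set (StrongDual 𝕜 E)) =
        {g | ∀ n, n ∉ A → g (X.y n) = 0} := by
    intro A
    apply Subset.antisymm
    · refine closure_minimal ?_ ?_
      · intro g hg n hn
        refine Submodule.span_induction (p := fun g _ => g (X.y n) = 0) ?_ ?_ ?_ ?_ hg
        · rintro _ ⟨i, hi, rfl⟩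
          rw [X.biorth, if_neg]
          rintro rfl
          exact hn hi
        · rfl
        · intro a b _ _ ha hb'
          rw [_root_.add_apply, ha, hb', add_zero]
        · intro c a _ ha
          rw [_root_.smul_apply, ha, smul_zero]
      · have : {g : StrongDual 𝕜 E | ∀ n, n ∉ A → g (X.y n) = 0} =
            ⋂ n, ⋂ (_ : n ∉ A), {g : StrongDual 𝕜 E | g (X.y n) = 0} := by
          ext g; simp
        rw [this]
        refine isClosed_iInter fun n => isClosed_iInter fun _ => ?_
        exact isClosed_eq (NormedSpace.inclusionInDoubleDual 𝕜 E (X.y n)).continuous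
          continuous_const
    · intro g hg
      exact X.strong (by rw [hXf]; exact hdf) A g hg
  refine ⟨X.y, X.g, X.biorth, ?_, ?_, hstrong, ?_⟩
  · refine Dense.mono ?_ hde
    refine Submodule.span_le.2 ?_
    rintro _ ⟨n, rfl⟩
    rw [← hXe]
    refine Submodule.span_mono (image_subset_range _ _) (X.e_mem (n := n) (l := n + 1) ?_)
    exact lt_of_lt_of_le (Nat.lt_succ_self n) X.s_strictMono.le_apply
  · refine Dense.mono ?_ hdf
    refine Submodule.span_le.2 ?_
    rintro _ ⟨n, rfl⟩
    rw [← hXf]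
    refine Submodule.span_mono (image_subset_range _ _) (X.f_mem (n := n) (l := n + 1) ?_)
    exact lt_of_lt_of_le (Nat.lt_succ_self n) X.s_strictMono.le_apply
  · intro A
    apply Subset.antisymm
    · refine closure_minimal ?_ ?_
      · intro v hv n hn
        refine Submodule.span_induction (p := fun v _ => X.g n v = 0) ?_ ?_ ?_ ?_ hv
        · rintro _ ⟨i, hi, rfl⟩
          rw [X.biorth, if_neg]
          rintro rfl
          exact hn hi
        · exact map_zero _
        · intro a b _ _ ha hb'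
          rw [map_add, ha, hb', add_zero]
        · intro c a _ ha
          rw [map_smul, ha, smul_zero]
      · have : {v : E | ∀ n, n ∉ A → X.g n v = 0} =
            ⋂ n, ⋂ (_ : n ∉ A), {v : E | X.g n v = 0} := by
          ext g; simp
        rw [this]
        refine isClosed_iInter fun n => isClosed_iInter fun _ => ?_
        exact isClosed_eq (X.g n).continuous continuous_const
    · intro v hv
      by_contra hcon
      have hcon' : v ∉ (Submodule.span 𝕜 (X.y '' A)).topologicalClosure := hcon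
      obtain ⟨φ, hφ, hφv⟩ := exists_annihilating (Submodule.isClosed_topologicalClosure _) hcon'
      have h1 : φ ∈ closure (Submodule.span 𝕜 (X.g '' Aᶜ) : Set (StrongDual 𝕜 E)) := by
        rw [hstrong]
        intro n hn
        rw [mem_compl_iff, not_not] at hn
        exact hφ _ (Submodule.le_topologicalClosure _ (Submodule.subset_span ⟨n, hn, rfl⟩))
      have h2 : closure (Submodule.span 𝕜 (X.g '' Aᶜ) : Set (StrongDual 𝕜 E)) ⊆
          {g | g v = 0} := by
        refine closure_minimal ?_ ?_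
        · intro g hg
          refine Submodule.span_induction (p := fun g _ => g v = 0) ?_ ?_ ?_ ?_ hg
          · rintro _ ⟨i, hi, rfl⟩
            exact hv i hi
          · rfl
          · intro a b _ _ ha hb'
            rw [_root_.add_apply, ha, hb', add_zero]
          · intro c a _ ha
            rw [_root_.smul_apply, ha, smul_zero]
        · exact isClosed_eq (NormedSpace.inclusionInDoubleDual 𝕜 E v).continuous
            continuous_const
      exact hφv (h2 h1)

end Pool.Agent.U104.SB
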